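import Pool.Agent.L7h55.TN.Stm

/-!
# Project TN (helper55), part LEM: valuations
-/

set_option autoImplicit false

namespace Pool.Agent.L7h16.TN

open Pool.Agent.L7h55.TN

section

variable (R : ValuationSubring ℂ)

lemma int_le (k : ℤ) : R.valuation (k : ℂ) ≤ 1 := (R.valuation_le_one_iff _).2 (intCast_mem R k)

lemma mul_le_left {x y : ℂ} (hx : R.valuation x ≤ 1) : R.valuation (x * y) ≤ R.valuation y := by
  rw [map_mul]
  exact mul_le_of_le_one_left' hx

lemma dvd_of_lt {p : ℕ} (hp : p.Prime) (hvp : R.valuation (p : ℂ) < 1) (k : ℤ)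
    (hk : R.valuation (k : ℂ) < 1) : (p : ℤ) ∣ k := by
  by_contra hcon
  obtain ⟨a, c, hac⟩ := (Nat.prime_iff_prime_int.1 hp).coprime_iff_not_dvd.2 hcon
  have e : (1 : ℂ) = (a : ℂ) * (p : ℂ) + (c : ℂ) * (k : ℂ) := by exact_mod_cast hac.symm
  have h1 : R.valuation ((a : ℂ) * (p : ℂ)) < 1 := lt_of_le_of_lt (mul_le_left R (int_le R a)) hvp
  have h2 : R.valuation ((c : ℂ) * (k : ℂ)) < 1 := lt_of_le_of_lt (mul_le_left R (int_le R c)) hk
  have h3 := R.valuation.map_add_lt h1 h2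
  rw [← e, map_one] at h3
  exact lt_irrefl _ h3

lemma pow_dvd_of_le {p : ℕ} (hp : p.Prime) (hvp : R.valuation (p : ℂ) < 1) (m : ℕ) : ∀ k : ℤ,
    R.valuation (k : ℂ) ≤ R.valuation (p : ℂ) ^ m → (p : ℤ) ^ m ∣ k := by
  have hp0 : R.valuation (p : ℂ) ≠ 0 := by
    rw [Valuation.ne_zero_iff]
    exact_mod_cast hp.ne_zero
  induction m with
  | zero =>
    intro k _
    rw [pow_zero]
    exact one_dvd k
  | succ m ih =>
    intro k hk
    have h1 : R.valuation (k : ℂ) < 1 := by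
      refine lt_of_le_of_lt hk ?_
      rw [pow_succ]
      exact lt_of_le_of_lt (mul_le_of_le_one_left' (pow_le_one' hvp.le m)) hvp
    obtain ⟨k', hk'⟩ := dvd_of_lt R hp hvp k h1
    have h2 : R.valuation (k' : ℂ) ≤ R.valuation (p : ℂ) ^ m := by
      have e : (k : ℂ) = (p : ℂ) * (k' : ℂ) := by rw [hk']; push_cast; ring
      rw [e, map_mul, pow_succ, mul_comm] at hk
      exact le_of_mul_le_mul_right hk (zero_lt_iff.2 hp0)
    rw [hk', pow_succ, mul_comm]
    exact mul_dvd_mul_left _ (ih k' h2)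

lemma pow_sub_le {x y : ℂ} (hx : x ∈ R) (hy : y ∈ R) (k : ℕ) :
    R.valuation (x ^ k - y ^ k) ≤ R.valuation (x - y) := by
  obtain ⟨c, hc⟩ := sub_dvd_pow_sub_pow (⟨x, hx⟩ : R) (⟨y, hy⟩ : R) k
  have e : x ^ k - y ^ k = (c : ℂ) * (x - y) := by
    have h : ((((⟨x, hx⟩ : R) ^ k - (⟨y, hy⟩ : R) ^ k : R)) : ℂ) = ((((⟨x, hx⟩ : R) - (⟨y, hy⟩ : R)) * c : R) : ℂ) :=
      congrArg Subtype.val hc
    rw [mul_comm]
    exact h
  rw [e]
  exact mul_le_left R ((R.valuation_le_one_iff _).2 c.2)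

end

theorem s_LEM : S_LEM := by
  intro R b p A B A' B' m n hb hp hvp h1 h2 hB hB' hm hmn
  have hN : ∀ k : ℕ, R.valuation (k : ℂ) ≤ 1 := fun k => by
    have := int_le R k
    rwa [Int.cast_natCast] at this
  have hbR : b ∈ R := (R.valuation_le_one_iff _).1 hb.le
  have hNR : ∀ k : ℕ, (k : ℂ) ∈ R := fun k => natCast_mem R k
  -- the two differences
  have hX : R.valuation ((B : ℂ) * b - A) ≤ R.valuation b ^ n := by
    rw [h1, map_mul, map_pow]
    refine mul_le_of_le_one_right' ?_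
    exact (R.valuation_le_one_iff _).2 (sub_mem (hNR B) (mul_mem (hNR A) hbR))
  have hY : R.valuation ((B' : ℂ) * b - A') ≤ R.valuation b ^ m := by
    rw [h2, map_mul, map_pow]
    refine mul_le_of_le_one_right' ?_
    exact (R.valuation_le_one_iff _).2 (sub_mem (hNR B') (mul_mem (hNR A') hbR))
  have hBv : R.valuation (B : ℂ) = 1 := by
    refine le_antisymm (hN B) (not_lt.1 fun h => hB ?_)
    have := dvd_of_lt R hp hvp (B : ℤ) (by rwa [Int.cast_natCast])
    exact_mod_cast this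
  -- the value of `A`
  have hAb : R.valuation (A : ℂ) ≤ R.valuation b := by
    have e : (A : ℂ) = (B : ℂ) * b - ((B : ℂ) * b - A) := by ring
    rw [e]
    refine (R.valuation.map_sub _ _).trans (max_le ?_ ?_)
    · exact mul_le_left R (hN B)
    · refine hX.trans ?_
      calc R.valuation b ^ n ≤ R.valuation b ^ 1 := pow_le_pow_right_of_le_one' hb.le (by omega)
        _ = R.valuation b := pow_one _
  have hpA : (p : ℤ) ∣ (A : ℤ) := dvd_of_lt R hp hvp (A : ℤ) (by
    rw [Int.cast_natCast]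
    exact lt_of_le_of_lt hAb hb)
  have hAp : R.valuation (A : ℂ) ≤ R.valuation (p : ℂ) := by
    obtain ⟨c, hc⟩ := hpA
    have e : (A : ℂ) = (c : ℂ) * (p : ℂ) := by
      have : ((A : ℤ) : ℂ) = ((p * c : ℤ) : ℂ) := by rw [hc]
      rw [Int.cast_natCast] at this
      rw [this]
      push_cast
      ring
    rw [e]
    exact mul_le_left R (int_le R c)
  have hbp : R.valuation b ≤ R.valuation (p : ℂ) := by
    by_cases hb0 : b = 0
    · rw [hb0, map_zero]
      exact zero_le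
    · have hvb0 : 0 < R.valuation b := zero_lt_iff.2 ((Valuation.ne_zero_iff _).2 hb0)
      have hlt : R.valuation b ^ n < R.valuation b := by
        have e : n = (n - 1) + 1 := by omega
        rw [e, pow_succ]
        have h3 : R.valuation b ^ (n - 1) < 1 := by
          refine lt_of_le_of_lt (pow_le_pow_right_of_le_one' hb.le (by omega : 1 ≤ n - 1)) ?_
          rwa [pow_one]
        calc R.valuation b ^ (n - 1) * R.valuation b < 1 * R.valuation b :=
              mul_lt_mul_of_pos_right h3 hvb0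
          _ = R.valuation b := one_mul _
      have h4 : R.valuation b ≤ max (R.valuation (A : ℂ)) (R.valuation ((B : ℂ) * b - A)) := by
        have e : R.valuation b = R.valuation ((A : ℂ) + ((B : ℂ) * b - A)) := by
          rw [add_sub_cancel, map_mul, hBv, one_mul]
        rw [e]
        exact R.valuation.map_add _ _
      rcases le_max_iff.1 h4 with h5 | h5
      · exact h5.trans hAp
      · exact absurd (h5.trans hX) (not_le.2 hlt)
  constructor
  · apply pow_dvd_of_le R hp hvp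
    have e : (((A : ℤ) * B' - A' * B : ℤ) : ℂ) = (B : ℂ) * ((B' : ℂ) * b - A') - (B' : ℂ) * ((B : ℂ) * b - A) := by
      push_cast
      ring
    rw [e]
    refine (R.valuation.map_sub _ _).trans (max_le ?_ ?_)
    · exact ((mul_le_left R (hN B)).trans hY).trans (pow_le_pow_left' hbp m)
    · refine ((mul_le_left R (hN B')).trans hX).trans ?_
      exact (pow_le_pow_right_of_le_one' hb.le hmn.le).trans (pow_le_pow_left' hbp m)
  · apply pow_dvd_of_le R hp hvp
    have hF : (A' : ℂ) * (((B : ℂ) * b) ^ (m + 1) - (B : ℂ) ^ (m + 1)) -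
        (B' : ℂ) * ((B : ℂ) * ((B : ℂ) * b) ^ m - (B : ℂ) ^ m * ((B : ℂ) * b)) = 0 := by
      have e : (A' : ℂ) * (((B : ℂ) * b) ^ (m + 1) - (B : ℂ) ^ (m + 1)) -
          (B' : ℂ) * ((B : ℂ) * ((B : ℂ) * b) ^ m - (B : ℂ) ^ m * ((B : ℂ) * b)) =
          (B : ℂ) ^ (m + 1) * (((B' : ℂ) * b - A') - b ^ m * ((B' : ℂ) - A' * b)) := by ring
      rw [e, h2, sub_self, mul_zero]
    have e : (((A' : ℤ) * ((A : ℤ) ^ (m + 1) - (B : ℤ) ^ (m + 1)) - B' * ((A : ℤ) ^ m * B - A * (B : ℤ) ^ m) : ℤ) : ℂ) =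
        ((A' : ℂ) * ((A : ℂ) ^ (m + 1) - ((B : ℂ) * b) ^ (m + 1)) - ((B' : ℂ) * (B : ℂ)) * ((A : ℂ) ^ m - ((B : ℂ) * b) ^ m)) +
        ((B' : ℂ) * (B : ℂ) ^ m) * ((A : ℂ) ^ 1 - ((B : ℂ) * b) ^ 1) := by
      rw [← sub_eq_zero]
      rw [← hF]
      push_cast
      ring
    rw [e]
    have hBb : (B : ℂ) * b ∈ R := mul_mem (hNR B) hbR
    have hD : R.valuation ((A : ℂ) - (B : ℂ) * b) ≤ R.valuation (p : ℂ) ^ n := by
      rw [← Valuation.map_neg, neg_sub]
      exact hX.trans (pow_le_pow_left' hbp n)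
    have hD' : ∀ k : ℕ, R.valuation ((A : ℂ) ^ k - ((B : ℂ) * b) ^ k) ≤ R.valuation (p : ℂ) ^ n :=
      fun k => (pow_sub_le R (hNR A) hBb k).trans hD
    refine (R.valuation.map_add _ _).trans (max_le ((R.valuation.map_sub _ _).trans (max_le ?_ ?_)) ?_)
    · exact (mul_le_left R (hN A')).trans (hD' _)
    · refine (mul_le_left R ?_).trans (hD' _)
      rw [← Nat.cast_mul]
      exact hN _
    · refine (mul_le_left R ?_).trans (hD' _)
      rw [← Nat.cast_pow, ← Nat.cast_mul]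
      exact hN _

end Pool.Agent.L7h16.TN
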