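import Pool.Agent.L7h55.TN.Stm3

/-!
# Project TN (helper55), part RB: the degrees of the factors if `A + 1` is prime
-/

set_option autoImplicit false

open Polynomial

namespace Pool.Agent.L7h16.TN

open Pool.Agent.L7h55.TN

theorem key (A : ℕ) (f g : ℤ[X]) (hA : 4 ≤ A) (h : Fac A f g) [hp : Fact (A + 1).Prime] :
    (f.map (Int.castRingHom (ZMod (A + 1)))) * (g.map (Int.castRingHom (ZMod (A + 1)))) =
      C (A : ZMod (A + 1)) * ((X - C 1) ^ (A - 2) * (X - C (-1)) ^ A) := by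
  have h1 := congrArg (Polynomial.map (Int.castRingHom (ZMod (A + 1)))) h.eq
  have hA1 : ((A : ZMod (A + 1)) + 1) = 0 := by
    have := CharP.cast_eq_zero (ZMod (A + 1)) (A + 1)
    exact_mod_cast this
  have hT : (T A).map (Int.castRingHom (ZMod (A + 1))) =
      C (A : ZMod (A + 1)) * ((X - C 1) ^ (A + 1) * (X - C (-1)) ^ (A + 1)) := by
    unfold T
    have ea : (Int.castRingHom (ZMod (A + 1))) (A : ℤ) = (A : ZMod (A + 1)) := by simp
    have eb : (Int.castRingHom (ZMod (A + 1))) ((A : ℤ) + 1) = 0 := by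
      rw [map_add, ea, map_one]
      exact hA1
    have e1 : (X : (ZMod (A + 1))[X]) ^ (2 * A + 2) - 1 = (X - 1) ^ (A + 1) * (X + 1) ^ (A + 1) := by
      rw [← mul_pow]
      have e2 : (X - 1) * (X + 1) = (X ^ 2 - 1 : (ZMod (A + 1))[X]) := by ring
      rw [e2, sub_pow_char, ← pow_mul, one_pow]
      congr 2
    rw [Polynomial.map_sub, Polynomial.map_mul, Polynomial.map_mul, Polynomial.map_C, Polynomial.map_C, ea, eb,
      C_0, zero_mul, sub_zero, Polynomial.map_sub, Polynomial.map_pow, Polynomial.map_X, Polynomial.map_one, e1,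
      C_neg, C_1, sub_neg_eq_add]
  have hL : L4.map (Int.castRingHom (ZMod (A + 1))) = (X - C 1) ^ 3 * (X - C (-1)) := by
    unfold L4
    simp
  rw [Polynomial.map_mul, Polynomial.map_mul, hL, hT] at h1
  have hne : ((X - C 1) ^ 3 * (X - C (-1)) : (ZMod (A + 1))[X]) ≠ 0 :=
    mul_ne_zero (pow_ne_zero _ (X_sub_C_ne_zero _)) (X_sub_C_ne_zero _)
  apply mul_left_cancel₀ hne
  rw [h1]
  have e3 : A + 1 = 3 + (A - 2) := by omega
  have e4 : ((X - C 1) ^ (A + 1) : (ZMod (A + 1))[X]) = (X - C 1) ^ 3 * (X - C 1) ^ (A - 2) := by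
    rw [← pow_add]
    congr 1
  rw [e4, pow_succ (X - C (-1)) A]
  ring

theorem s_RB (hV : S_VAL1) (hL : S_LC) : S_RB := by
  intro A f g hA h hpr
  have : Fact (A + 1).Prime := ⟨hpr⟩
  obtain ⟨v1, v2⟩ := hV A f g (by omega) h
  obtain ⟨-, -, hdeg⟩ := hL A f g (by omega) h
  have hk := key A f g hA h
  obtain ⟨F, hF⟩ : ∃ F, F = f.map (Int.castRingHom (ZMod (A + 1))) := ⟨_, rfl⟩
  obtain ⟨G, hG⟩ : ∃ G, G = g.map (Int.castRingHom (ZMod (A + 1))) := ⟨_, rfl⟩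
  rw [← hF, ← hG] at hk
  have hFd : F.natDegree ≤ f.natDegree := by rw [hF]; exact natDegree_map_le
  have hGd : G.natDegree ≤ g.natDegree := by rw [hG]; exact natDegree_map_le
  have hA0 : (A : ZMod (A + 1)) ≠ 0 := by
    rw [Ne, ZMod.natCast_eq_zero_iff]
    exact Nat.not_dvd_of_pos_of_lt (by omega) (by omega)
  have hFG : F * G ≠ 0 := by
    rw [hk]
    exact mul_ne_zero (C_ne_zero.2 hA0) (mul_ne_zero (pow_ne_zero _ (X_sub_C_ne_zero _)) (pow_ne_zero _ (X_sub_C_ne_zero _)))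
  have hF0 : F ≠ 0 := left_ne_zero_of_mul hFG
  have hG0 : G ≠ 0 := right_ne_zero_of_mul hFG
  have d1 : (X - C 1 : (ZMod (A + 1))[X]) ^ (A - 2) ∣ F * G := by
    rw [hk]
    exact Dvd.intro_left (C (A : ZMod (A + 1)) * (X - C (-1)) ^ A) (by ring)
  have d2 : (X - C (-1) : (ZMod (A + 1))[X]) ^ A ∣ F * G := by
    rw [hk]
    exact Dvd.intro_left (C (A : ZMod (A + 1)) * (X - C 1) ^ (A - 2)) (by ring)
  have n1 : ¬ ((X - C 1 : (ZMod (A + 1))[X]) ∣ F ∧ (X - C 1 : (ZMod (A + 1))[X]) ∣ G) := by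
    rintro ⟨g1, g2⟩
    rw [dvd_iff_isRoot, IsRoot.def, hF, eval_one_map, eq_intCast, ZMod.intCast_zmod_eq_zero_iff_dvd] at g1
    rw [dvd_iff_isRoot, IsRoot.def, hG, eval_one_map, eq_intCast, ZMod.intCast_zmod_eq_zero_iff_dvd] at g2
    obtain ⟨u, hu⟩ := g1
    obtain ⟨v, hv⟩ := g2
    rw [hu, hv] at v1
    push_cast at v1
    have hne : ((A : ℤ) + 1) ≠ 0 := by positivity
    have h5 : 6 * ((A : ℤ) + 1) * u * v = A * (2 * A + 1) := by
      apply mul_left_cancel₀ hne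
      linear_combination v1
    have h6 : ((A : ℤ) + 1) ∣ 1 := ⟨6 * u * v - 2 * A + 1, by linear_combination -h5⟩
    have := Int.le_of_dvd one_pos h6
    omega
  have n2 : ¬ ((X - C (-1) : (ZMod (A + 1))[X]) ∣ F ∧ (X - C (-1) : (ZMod (A + 1))[X]) ∣ G) := by
    rintro ⟨g1, g2⟩
    have e : (-1 : ZMod (A + 1)) = ((-1 : ℤ) : ZMod (A + 1)) := by push_cast; rfl
    rw [dvd_iff_isRoot, IsRoot.def, hF, e, eval_intCast_map, eq_intCast, ZMod.intCast_zmod_eq_zero_iff_dvd] at g1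
    rw [dvd_iff_isRoot, IsRoot.def, hG, e, eval_intCast_map, eq_intCast, ZMod.intCast_zmod_eq_zero_iff_dvd] at g2
    simp only [Int.cast_neg, Int.cast_one] at g1 g2
    obtain ⟨u, hu⟩ := g1
    obtain ⟨v, hv⟩ := g2
    rw [hu, hv] at v2
    push_cast at v2
    have hne : ((A : ℤ) + 1) ≠ 0 := by positivity
    have h5 : 2 * ((A : ℤ) + 1) * u * v = A := by
      apply mul_left_cancel₀ hne
      linear_combination v2
    have h6 : ((A : ℤ) + 1) ∣ 1 := ⟨1 - 2 * u * v, by linear_combination h5⟩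
    have := Int.le_of_dvd one_pos h6
    omega
  have p1 := prime_X_sub_C (1 : ZMod (A + 1))
  have p2 := prime_X_sub_C (-1 : ZMod (A + 1))
  have q1 : ∀ {P : (ZMod (A + 1))[X]}, P ≠ 0 → (X - C 1 : (ZMod (A + 1))[X]) ^ (A - 2) ∣ P → A - 2 ≤ P.natDegree := by
    intro P hP hd
    have := natDegree_le_of_dvd hd hP
    rwa [natDegree_pow, natDegree_X_sub_C, mul_one] at this
  have q2 : ∀ {P : (ZMod (A + 1))[X]}, P ≠ 0 → (X - C (-1) : (ZMod (A + 1))[X]) ^ A ∣ P → A ≤ P.natDegree := by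
    intro P hP hd
    have := natDegree_le_of_dvd hd hP
    rwa [natDegree_pow, natDegree_X_sub_C, mul_one] at this
  have hco : IsCoprime ((X - C 1 : (ZMod (A + 1))[X]) ^ (A - 2)) ((X - C (-1) : (ZMod (A + 1))[X]) ^ A) := by
    apply IsCoprime.pow
    apply isCoprime_X_sub_C_of_isUnit_sub
    apply IsUnit.mk0
    have e : (1 : ZMod (A + 1)) - (-1) = ((2 : ℕ) : ZMod (A + 1)) := by push_cast; ring
    rw [e, Ne, ZMod.natCast_eq_zero_iff]
    exact Nat.not_dvd_of_pos_of_lt (by omega) (by omega)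
  have q3 : ∀ {P : (ZMod (A + 1))[X]}, P ≠ 0 → (X - C 1 : (ZMod (A + 1))[X]) ^ (A - 2) ∣ P →
      (X - C (-1) : (ZMod (A + 1))[X]) ^ A ∣ P → A - 2 + A ≤ P.natDegree := by
    intro P hP hd hd'
    have := natDegree_le_of_dvd (hco.mul_dvd hd hd') hP
    rwa [natDegree_mul (pow_ne_zero _ (X_sub_C_ne_zero _)) (pow_ne_zero _ (X_sub_C_ne_zero _)), natDegree_pow,
      natDegree_X_sub_C, mul_one, natDegree_pow, natDegree_X_sub_C, mul_one] at this
  have hdf := h.df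
  have hdg := h.dg
  by_cases c1 : (X - C 1 : (ZMod (A + 1))[X]) ∣ F
  · have c1' : ¬ (X - C 1 : (ZMod (A + 1))[X]) ∣ G := fun hc => n1 ⟨c1, hc⟩
    have r1 := p1.pow_dvd_of_dvd_mul_right _ c1' d1
    by_cases c2 : (X - C (-1) : (ZMod (A + 1))[X]) ∣ F
    · have c2' : ¬ (X - C (-1) : (ZMod (A + 1))[X]) ∣ G := fun hc => n2 ⟨c2, hc⟩
      have r2 := p2.pow_dvd_of_dvd_mul_right _ c2' d2
      have := q3 hF0 r1 r2
      omega
    · have r2 := p2.pow_dvd_of_dvd_mul_left _ c2 d2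
      have h7 := q1 hF0 r1
      have h8 := q2 hG0 r2
      left
      omega
  · have r1 := p1.pow_dvd_of_dvd_mul_left _ c1 d1
    by_cases c2 : (X - C (-1) : (ZMod (A + 1))[X]) ∣ F
    · have c2' : ¬ (X - C (-1) : (ZMod (A + 1))[X]) ∣ G := fun hc => n2 ⟨c2, hc⟩
      have r2 := p2.pow_dvd_of_dvd_mul_right _ c2' d2
      have h7 := q2 hF0 r2
      have h8 := q1 hG0 r1
      right
      omega
    · have r2 := p2.pow_dvd_of_dvd_mul_left _ c2 d2
      have := q3 hG0 r1 r2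
      omega

end Pool.Agent.L7h16.TN
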